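import Mathlib
import Pool.Agent.Helper49.RU.St

/-!
Project RU (MP_a60174_an), module ULT: the ultrafilter on the index set.
-/

set_option autoImplicit false

namespace Pool.Agent.Helper40.RU

open Pool.Agent.Helper49.RU
open MeasureTheory Filter Topology Complex
open scoped ENNReal Cardinal ComplexConjugate

/-- membership of a set of indices -/
def Inn {τ : Type} (G : τ → Set Code) (B : Set Idx) : Prop :=
  ∃ (t : τ) (j : ℕ), ∀ c ∈ G t, j ≤ c.1 → Big j c.2 → ∀ g ∈ c.2, (⟨c.1, g⟩ : Idx) ∈ B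

theorem inn_inter {τ : Type} (G : τ → Set Code)
    (hmono : ∀ (j L k : ℕ) (Z : Finset (Fin k → Q)), j ≤ L → Big L Z → Big j Z)
    {t₁ t₂ : τ} (h : AL (G t₁) (G t₂)) {j₁ j₂ : ℕ} {B₁ B₂ : Set Idx}
    (h₁ : ∀ c ∈ G t₁, j₁ ≤ c.1 → Big j₁ c.2 → ∀ g ∈ c.2, (⟨c.1, g⟩ : Idx) ∈ B₁)
    (h₂ : ∀ c ∈ G t₂, j₂ ≤ c.1 → Big j₂ c.2 → ∀ g ∈ c.2, (⟨c.1, g⟩ : Idx) ∈ B₂) :
    Inn G (B₁ ∩ B₂) := by
  obtain ⟨j₀, h₀⟩ := h
  refine ⟨t₁, max j₀ (max j₁ j₂), ?_⟩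
  intro c hc hj hB g hg
  have a₀ : j₀ ≤ max j₀ (max j₁ j₂) := le_max_left _ _
  have a₁ : j₁ ≤ max j₀ (max j₁ j₂) := (le_max_left _ _).trans (le_max_right _ _)
  have a₂ : j₂ ≤ max j₀ (max j₁ j₂) := (le_max_right _ _).trans (le_max_right _ _)
  refine ⟨h₁ c hc (a₁.trans hj) (hmono _ _ _ _ a₁ hB) g hg, ?_⟩
  exact h₂ c (h₀ c hc (a₀.trans hj) (hmono _ _ _ _ a₀ hB)) (a₂.trans hj)
    (hmono _ _ _ _ a₂ hB) g hg

theorem hULT (hHLF : StHLF) (hGEN : StGEN) : StULT := by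
  intro hP
  obtain ⟨τ, G, hC, hAL, hdec, hM, hw⟩ := hGEN hP
  obtain ⟨hmono, hne, -⟩ := hHLF
  obtain ⟨t₀, -⟩ := hdec ∅
  have hempty : ¬ Inn G ∅ := by
    rintro ⟨t, j, h⟩
    obtain ⟨k, hk, Z, hZ, hB⟩ := (hC t).2 j
    obtain ⟨g, hg⟩ := hne j k Z hB
    exact h ⟨k, Z⟩ hZ hk hB g hg
  obtain ⟨Fl, hFl⟩ : ∃ Fl : Filter Idx, ∀ B : Set Idx, B ∈ Fl ↔ Inn G B := by
    refine ⟨{ sets := {B | Inn G B}
              univ_sets := ⟨t₀, 0, fun _ _ _ _ _ _ => trivial⟩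
              sets_of_superset := ?_
              inter_sets := ?_ }, fun B => Iff.rfl⟩
    · rintro A B ⟨t, j, h⟩ hAB
      exact ⟨t, j, fun c hc hj hB g hg => hAB (h c hc hj hB g hg)⟩
    · rintro A B ⟨t₁, j₁, h₁⟩ ⟨t₂, j₂, h₂⟩
      rcases hAL t₁ t₂ with h | h
      · exact inn_inter G hmono h h₁ h₂
      · have := inn_inter G hmono h h₂ h₁
        rw [Set.inter_comm] at this
        exact this
  have hcompl : ∀ s : Set Idx, sᶜ ∉ Fl ↔ s ∈ Fl := by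
    intro s
    constructor
    · intro hs
      obtain ⟨t, h | h⟩ := hdec s
      · rw [hFl]
        exact ⟨t, 0, fun c hc _ _ g hg => h c hc g hg⟩
      · exfalso
        apply hs
        rw [hFl]
        exact ⟨t, 0, fun c hc _ _ g hg => h c hc g hg⟩
    · intro hs hs'
      have := Filter.inter_mem hs hs'
      rw [Set.inter_compl_self, hFl] at this
      exact hempty this
  obtain ⟨U, hU⟩ : ∃ U : Ultrafilter Idx, (U : Filter Idx) = Fl :=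
    ⟨Ultrafilter.ofComplNotMemIff Fl hcompl, rfl⟩
  have hUm : ∀ B : Set Idx, B ∈ (U : Filter Idx) ↔ Inn G B := by
    intro B
    rw [hU]; exact hFl B
  refine ⟨U, ?_, ?_, ?_⟩
  · intro i
    change ({i} : Set Idx)ᶜ ∈ (U : Filter Idx)
    rw [hUm]
    refine ⟨t₀, i.1 + 1, ?_⟩
    intro c _ hj _ g _ hi
    rw [Set.mem_singleton_iff] at hi
    have : c.1 = i.1 := congrArg Sigma.fst hi
    omega
  · intro M
    rw [Metric.tendsto_nhds]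
    intro ε hε
    obtain ⟨t, ht⟩ := hM M (ε / 2) (half_pos hε)
    change {i | dist (tst (⇑M) (zeta i)) 0 < ε} ∈ (U : Filter Idx)
    rw [hUm]
    refine ⟨t, 0, ?_⟩
    intro c hc _ _ g hg
    have := ht c hc g hg
    change dist (tst (⇑M) (zeta ⟨c.1, g⟩)) 0 < ε
    rw [Real.dist_0_eq_abs]
    linarith
  · intro w ε hwb hε
    obtain ⟨t, T, ht⟩ := hw w ε hwb hε
    refine ⟨T, ?_⟩
    change {i | ‖T (w i) - pz (zeta i) (w i)‖ ≤ ε} ∈ (U : Filter Idx)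
    rw [hUm]
    exact ⟨t, 0, fun c hc _ _ g hg => ht c hc g hg⟩

end Pool.Agent.Helper40.RU
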